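import Pool.Agent.H30.Gig

open Pool.Agent.H30.Gig

theorem Pool.Agent.Results.MP_c0e261_lc.Undec.result :
    ¬ ComputablePred fun G : List Pr => lang G = ∅ :=
  main
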